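import Mathlib

namespace Pool.Agent.Results.MP_93c8fe_an.Bound

open Metric Finset
open scoped ENNReal InnerProductSpace

/-- Real `ℓ₂`. -/
abbrev L2 : Type := lp (fun _ : ℕ => ℝ) 2

/-- Gelfand numbers `c_n(S,F)`. -/
noncomputable def gel {X Y : Type} [NormedAddCommGroup X] [NormedSpace ℝ X]
    [NormedAddCommGroup Y] [NormedSpace ℝ Y] (n : ℕ) (S : X →L[ℝ] Y) (F : Set X) : ℝ≥0∞ :=
  ⨅ L : Fin n → StrongDual ℝ X, ⨆ f ∈ F, ⨆ g ∈ F, ⨆ _ : ∀ k, L k f = L k g, ‖S f - S g‖ₑ / 2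

/-- Hilbert numbers `h_n(S,F)`. -/
noncomputable def hil {X Y : Type} [NormedAddCommGroup X] [NormedSpace ℝ X]
    [NormedAddCommGroup Y] [NormedSpace ℝ Y] (n : ℕ) (S : X →L[ℝ] Y) (F : Set X) : ℝ≥0∞ :=
  ⨆ (B : Y →L[ℝ] L2) (_ : ‖B‖ ≤ 1) (A : L2 →L[ℝ] X), ⨆ x ∈ F,
    ⨆ _ : ∀ a ∈ closedBall (0 : L2) 1, A a + x ∈ F, gel n (B ∘L S ∘L A) (closedBall 0 1)

variable {X Y : Type} [NormedAddCommGroup X] [InnerProductSpace ℝ X]
  [NormedAddCommGroup Y] [NormedSpace ℝ Y]

lemma pick {S : X →L[ℝ] Y} {m : ℕ} {c : ℝ} (hc : 0 ≤ c)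
    (h : ENNReal.ofReal c < gel m S (closedBall 0 1)) (L : Fin m → StrongDual ℝ X) :
    ∃ u, ‖u‖ ≤ 1 ∧ (∀ k, L k u = 0) ∧ c < ‖S u‖ := by
  have h1 := h.trans_le (iInf_le _ L)
  simp only [lt_iSup_iff] at h1
  obtain ⟨f, hf, g, hg, hL, h2⟩ := h1
  rw [mem_closedBall_zero_iff] at hf hg
  refine ⟨(1 / 2 : ℝ) • (f - g), ?_, fun k => by simp [hL k], ?_⟩
  · rw [norm_smul]; have := norm_sub_le f g; norm_num; linarith
  · rw [← ofReal_norm, ← ENNReal.ofReal_ofNat, ← ENNReal.ofReal_div_of_pos (by norm_num),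
      ENNReal.ofReal_lt_ofReal_iff_of_nonneg hc] at h2
    rw [map_smul, norm_smul, map_sub]; norm_num; linarith

lemma build [CompleteSpace X] {S : X →L[ℝ] Y} {m : ℕ} {c : ℝ} (hc : 0 ≤ c)
    (h : ENNReal.ofReal c < gel m S (closedBall 0 1)) (k : ℕ) (hk : k ≤ m + 1) :
    ∃ (e : ℕ → X) (b : ℕ → StrongDual ℝ Y),
      (∀ i < k, ∀ j < k, ⟪e i, e j⟫_ℝ = if i = j then 1 else 0) ∧
      ∀ j < k, ‖b j‖ ≤ 1 ∧ c < b j (S (e j)) ∧ ∀ x, (∀ i ≤ j, ⟪e i, x⟫_ℝ = 0) → b j (S x) = 0 := by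
  induction k with
  | zero => exact ⟨0, 0, by simp, by simp⟩
  | succ k ih =>
    obtain ⟨e, b, h1, h2⟩ := ih (by omega)
    obtain ⟨u, u1, u2, u3⟩ := pick hc h fun i => if (i : ℕ) < k then innerSL ℝ (e i) else 0
    have u4 : ∀ i < k, ⟪e i, u⟫_ℝ = 0 := fun i hi => by simpa [hi] using u2 ⟨i, by omega⟩
    obtain ⟨β, β1, β2⟩ := exists_dual_vector'' ℝ (S u)
    set g := (InnerProductSpace.toDual ℝ X).symm (β ∘L S) with hg
    have g1 : ∀ x, ⟪g, x⟫_ℝ = β (S x) := fun x => by simp [hg]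
    set p := g - ∑ i ∈ range k, ⟪e i, g⟫_ℝ • e i with hp
    have p1 : ∀ j < k, ⟪e j, p⟫_ℝ = 0 := fun j hj => by
      rw [hp, inner_sub_right, inner_sum, sum_congr rfl fun i hi => by
        rw [inner_smul_right, h1 j hj i (mem_range.1 hi)]]
      simp [hj]
    have p2 : ∀ x, (∀ i < k, ⟪e i, x⟫_ℝ = 0) → ⟪p, x⟫_ℝ = β (S x) := fun x hx => by
      rw [hp, inner_sub_left, sum_inner, sum_eq_zero fun i hi => by
        rw [real_inner_smul_left, hx i (mem_range.1 hi), mul_zero], sub_zero, g1]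
    have p3 : c < ‖p‖ := by
      have := real_inner_le_norm p u
      rw [p2 u u4, β2] at this
      simp only [RCLike.ofReal_real_eq_id, id] at this
      nlinarith [norm_nonneg p]
    have p4 : ‖p‖ ≠ 0 := by linarith
    have ne : ∀ i < k, Function.update e k (‖p‖⁻¹ • p) i = e i := fun i hi =>
      Function.update_of_ne hi.ne _ _
    refine ⟨Function.update e k (‖p‖⁻¹ • p), Function.update b k β, fun i hi j hj => ?_,
      fun j hj => ?_⟩
    · rcases Nat.lt_succ_iff_lt_or_eq.1 hi with hi | rfl <;>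
        rcases Nat.lt_succ_iff_lt_or_eq.1 hj with hj | rfl
      · rw [ne i hi, ne j hj, h1 i hi j hj]
      · rw [ne i hi, Function.update_self, inner_smul_right, p1 i hi]; simp [hi.ne]
      · rw [ne j hj, Function.update_self, real_inner_comm, inner_smul_right, p1 j hj]
        simp [hj.ne']
      · rw [Function.update_self, real_inner_self_eq_norm_sq, norm_smul]; simp [p4]
    · rcases Nat.lt_succ_iff_lt_or_eq.1 hj with hj | rfl
      · rw [ne j hj, Function.update_of_ne hj.ne]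
        refine ⟨(h2 j hj).1, (h2 j hj).2.1, fun x hx => (h2 j hj).2.2 x fun i hi => ?_⟩
        rw [← ne i (by omega)]; exact hx i hi
      · simp only [Function.update_self]
        refine ⟨β1, ?_, fun x hx => ?_⟩
        · rw [map_smul, map_smul, ← p2 p p1, real_inner_self_eq_norm_sq, smul_eq_mul]
          field_simp; exact p3
        · have h3 := hx j le_rfl
          rw [Function.update_self, real_inner_smul_left] at h3
          rw [← p2 x fun i hi => by rw [← ne i hi]; exact hx i hi.le]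
          exact (mul_eq_zero.1 h3).resolve_left (inv_ne_zero p4)

abbrev E (n : ℕ) : Type := EuclideanSpace ℝ (Fin n)

lemma sv {n : ℕ} (N : E n →ₗ[ℝ] E n) : ∃ lam : Fin n → ℝ, (∀ i, 0 ≤ lam i) ∧
    ∏ i, lam i = N.det ^ 2 ∧ ∀ (k : Fin n) (L : Fin k → E n →ₗ[ℝ] ℝ),
      ∃ w, ‖w‖ = 1 ∧ (∀ i, L i w = 0) ∧ lam k ≤ ‖N w‖ ^ 2 := by
  have hT := N.isSymmetric_adjoint_comp_self
  have hn : Module.finrank ℝ (E n) = n := by simp
  set v := hT.eigenvectorBasis hn
  have hv : ∀ i j, ⟪N (v i), N (v j)⟫_ℝ = if i = j then hT.eigenvalues hn i else 0 := by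
    intro i j
    rw [← LinearMap.adjoint_inner_left, ← LinearMap.comp_apply, hT.apply_eigenvectorBasis hn,
      real_inner_smul_left, orthonormal_iff_ite.1 v.orthonormal]
    simp
  refine ⟨hT.eigenvalues hn, fun i => by
      have := real_inner_self_nonneg (x := N (v i))
      rwa [hv, if_pos rfl] at this,
    ?_, fun k L => ?_⟩
  · have h1 := hT.det_eq_prod_eigenvalues hn
    have h2 := N.normDet_sq
    rw [N.normDet_eq_abs_det] at h2
    simp only [RCLike.ofReal_real_eq_id, id, sq_abs] at h1 h2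
    rw [← h1, h2]
  · set ι : Fin (k + 1) → Fin n := Fin.castLE k.2 with hι
    have hinj : ∀ i j, ι i = ι j ↔ i = j := fun i j => (Fin.castLE_injective _).eq_iff
    set W := Fintype.linearCombination ℝ (fun j => v (ι j)) with hW
    obtain ⟨a, ha, ha0⟩ := (Submodule.ne_bot_iff _).1 (LinearMap.ker_ne_bot_of_finrank_lt
      (f := LinearMap.pi L ∘ₗ W) (by simp))
    have n1 : ‖W a‖ ^ 2 = ∑ j, a j ^ 2 := by
      rw [← real_inner_self_eq_norm_sq]
      simp only [hW, Fintype.linearCombination_apply, sum_inner, inner_sum, real_inner_smul_left,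
        inner_smul_right, orthonormal_iff_ite.1 v.orthonormal, hinj, mul_ite, mul_zero,
        sum_ite_eq', mem_univ, if_true]
      exact sum_congr rfl fun j _ => by ring
    have n2 : ‖N (W a)‖ ^ 2 = ∑ j, hT.eigenvalues hn (ι j) * a j ^ 2 := by
      rw [← real_inner_self_eq_norm_sq]
      simp only [hW, Fintype.linearCombination_apply, map_sum, map_smul, sum_inner, inner_sum,
        real_inner_smul_left, inner_smul_right, hv, hinj, mul_ite, mul_zero, sum_ite_eq',
        mem_univ, if_true]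
      exact sum_congr rfl fun j _ => by ring
    have n3 : hT.eigenvalues hn k * ‖W a‖ ^ 2 ≤ ‖N (W a)‖ ^ 2 := by
      rw [n1, n2, mul_sum]
      exact sum_le_sum fun j _ => mul_le_mul_of_nonneg_right
        (hT.eigenvalues_antitone hn (Fin.le_def.2 (Nat.lt_succ_iff.1 j.2))) (sq_nonneg _)
    have n4 : ‖W a‖ ≠ 0 := fun h0 => ha0 (funext fun j => by
      rw [h0] at n1
      have := (sum_eq_zero_iff_of_nonneg fun j _ => sq_nonneg (a j)).1 (by rw [← n1]; norm_num) j
        (mem_univ j)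
      simpa using this)
    refine ⟨‖W a‖⁻¹ • W a, by rw [norm_smul]; simp [n4], fun i => ?_, ?_⟩
    · have : L i (W a) = 0 := congrFun (LinearMap.mem_ker.1 ha) i
      simp [this]
    · rw [map_smul, norm_smul, norm_inv, norm_norm, mul_pow, inv_pow, le_inv_mul_iff₀ (by positivity)]
      linarith

lemma iso {H : Type} [NormedAddCommGroup H] [InnerProductSpace ℝ H] {n : ℕ} (e : Fin n → H)
    (he : Orthonormal ℝ e) : ∃ J : E n →ₗᵢ[ℝ] H, ∀ i, J (EuclideanSpace.single i 1) = e i := by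
  set b := EuclideanSpace.basisFun (Fin n) ℝ
  have h : ∀ i, b.toBasis.constr ℝ e (b.toBasis i) = e i := fun i => by simp
  refine ⟨(b.toBasis.constr ℝ e).isometryOfOrthonormal (v := b.toBasis) b.orthonormal
    (by rwa [show (b.toBasis.constr ℝ e) ∘ b.toBasis = e from funext h]), fun i => ?_⟩
  simp [b]

lemma main [CompleteSpace X] {S : X →L[ℝ] Y} {n : ℕ} (hn : 1 ≤ n) {c : ℝ} (hc : 0 ≤ c)
    (h : ENNReal.ofReal c < gel (n - 1) S (closedBall 0 1)) :
    ENNReal.ofReal (c / √n) ^ n ≤ ∏ k ∈ range n, hil k S (closedBall 0 1) := by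
  obtain ⟨e, b, h1, h2⟩ := build hc h n (by omega)
  obtain ⟨J, hJ⟩ := iso (fun i : Fin n => e i) (orthonormal_iff_ite.2 fun i j => by
    rw [h1 i i.2 j j.2]; simp [Fin.ext_iff])
  obtain ⟨I, -⟩ := iso (fun i : Fin n => (lp.single 2 (i : ℕ) (1 : ℝ) : L2))
    (orthonormal_iff_ite.2 fun i j => by
      rw [lp.inner_single_left]; simp [lp.single_apply, Pi.single_apply, Fin.ext_iff])
  have hn' : 0 < √(n : ℝ) := Real.sqrt_pos.2 (by exact_mod_cast hn)
  set B0 : Y →L[ℝ] E n := (EuclideanSpace.equiv (Fin n) ℝ).symm.toContinuousLinearMap ∘L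
    ContinuousLinearMap.pi fun j : Fin n => (√(n : ℝ))⁻¹ • b j with hB0
  have B1 : ∀ y j, B0 y j = (√(n : ℝ))⁻¹ * b j y := fun y j => by simp [hB0]
  have B2 : ∀ y, ‖B0 y‖ ≤ ‖y‖ := fun y => by
    refine (abs_le_of_sq_le_sq' ?_ (norm_nonneg _)).2
    rw [EuclideanSpace.real_norm_sq_eq]
    have : ∀ j ∈ (univ : Finset (Fin n)), B0 y j ^ 2 ≤ (n : ℝ)⁻¹ * ‖y‖ ^ 2 := fun j _ => by
      rw [B1, mul_pow, inv_pow, Real.sq_sqrt (Nat.cast_nonneg _)]
      refine mul_le_mul_of_nonneg_left (sq_le_sq' ?_ ?_) (by positivity)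
      all_goals
        have := (b j).le_of_opNorm_le (h2 j j.2).1 y
        rw [one_mul, Real.norm_eq_abs, abs_le] at this
        linarith [this.1, this.2]
    refine (sum_le_card_nsmul _ _ _ this).trans_eq ?_
    have : (n : ℝ) ≠ 0 := by positivity
    simp only [card_univ, Fintype.card_fin, nsmul_eq_mul]; field_simp
  set N : E n →ₗ[ℝ] E n := (B0 ∘L S ∘L J.toContinuousLinearMap).toLinearMap with hN
  obtain ⟨lam, l0, l1, l2⟩ := sv N
  have hdet : (c / √n) ^ n ≤ N.det := by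
    rw [← LinearMap.det_toMatrix (EuclideanSpace.basisFun (Fin n) ℝ).toBasis]
    have e1 : ∀ i j, LinearMap.toMatrix (EuclideanSpace.basisFun (Fin n) ℝ).toBasis
        (EuclideanSpace.basisFun (Fin n) ℝ).toBasis N i j = (√(n : ℝ))⁻¹ * b i (S (e j)) := by
      intro i j
      simp [LinearMap.toMatrix_apply, hN, B1, hJ]
    rw [Matrix.det_of_lowerTriangular _ fun i j hij => by
      have hij' : i < j := hij
      rw [e1, (h2 i i.2).2.2 _ fun l hl => by
        rw [h1 l (by omega) j j.2, if_neg (by omega)], mul_zero]]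
    simp only [e1]
    calc (c / √n) ^ n = ∏ _i : Fin n, c / √n := by simp [div_pow]
      _ ≤ _ := prod_le_prod (fun _ _ => by positivity) fun i _ => by
        rw [div_eq_inv_mul]; exact mul_le_mul_of_nonneg_left (h2 i i.2).2.1.le (by positivity)
  have hk : ∀ k : Fin n, ENNReal.ofReal √(lam k) ≤ hil k S (closedBall 0 1) := by
    intro k
    set P := I.toContinuousLinearMap.adjoint with hP
    have P1 : ∀ w, P (I w) = w := fun w => by
      exact congrArg (fun T => T w) I.adjoint_comp_self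
    have P2 : ‖P‖ ≤ 1 := by
      rw [hP, LinearIsometryEquiv.norm_map]; exact I.norm_toContinuousLinearMap_le
    refine le_iSup₂_of_le (I.toContinuousLinearMap ∘L B0)
      (ContinuousLinearMap.opNorm_le_bound _ zero_le_one fun y => by simpa using B2 y)
      (le_iSup_of_le (J.toContinuousLinearMap ∘L P) (le_iSup₂_of_le 0 (by simp)
        (le_iSup_of_le (fun a ha => ?_) (le_iInf fun L => ?_))))
    · rw [mem_closedBall_zero_iff] at ha ⊢
      simpa using (P.le_of_opNorm_le P2 a).trans (by linarith)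
    · obtain ⟨w, w1, w2, w3⟩ := l2 k fun i => (L i).toLinearMap ∘ₗ I.toLinearMap
      have w4 : ∀ i, L i (I w) = 0 := w2
      refine le_iSup₂_of_le (I w) (by simp [w1]) (le_iSup₂_of_le (-I w) (by simp [w1])
        (le_iSup_of_le (fun i => by simp [w4]) ?_))
      have e2 : ∀ t : ℝ, ENNReal.ofReal t / 2 = ENNReal.ofReal (t / 2) := fun t => by
        rw [ENNReal.ofReal_div_of_pos (by norm_num)]; simp
      rw [← ofReal_norm, e2]
      refine ENNReal.ofReal_le_ofReal ?_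
      rw [map_neg, sub_neg_eq_add, ← two_smul ℝ, norm_smul]
      have : ‖((I.toContinuousLinearMap ∘L B0) ∘L S ∘L J.toContinuousLinearMap ∘L P) (I w)‖ =
        ‖N w‖ := by simp [P1, hN]
      rw [this]
      have := Real.sqrt_le_iff.2 ⟨norm_nonneg _, w3⟩
      norm_num; linarith
  rw [← Fin.prod_univ_eq_prod_range (fun k => hil k S (closedBall 0 1))]
  refine le_trans ?_ (prod_le_prod' fun k _ => hk k)
  rw [← ENNReal.ofReal_prod_of_nonneg fun _ _ => Real.sqrt_nonneg _,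
    ← ENNReal.ofReal_pow (by positivity), ← Real.sqrt_prod _ fun i _ => l0 i, l1]
  exact ENNReal.ofReal_le_ofReal (hdet.trans (Real.le_sqrt_of_sq_le le_rfl))

theorem result (X Y : Type) [NormedAddCommGroup X] [InnerProductSpace ℝ X] [CompleteSpace X]
    [NormedAddCommGroup Y] [NormedSpace ℝ Y] (S : X →L[ℝ] Y) (n : ℕ) (hn : 1 ≤ n) :
    gel (n - 1) S (closedBall 0 1) ≤
      (n : ℝ≥0∞) ^ (1 / 2 : ℝ) * (∏ k ∈ range n, hil k S (closedBall 0 1)) ^ (1 / n : ℝ) := by
  refine ENNReal.le_of_forall_pos_nnreal_lt fun c _ hc => ?_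
  have h := main hn c.2 (S := S) (by simpa using hc)
  have hn' : 0 < √(n : ℝ) := Real.sqrt_pos.2 (by exact_mod_cast hn)
  have h2 := ENNReal.rpow_le_rpow h (z := 1 / n) (by positivity)
  rw [one_div, ENNReal.pow_rpow_inv_natCast (by omega), ← one_div] at h2
  refine le_trans (le_of_eq ?_) (mul_le_mul_right h2 _)
  rw [← ENNReal.ofReal_natCast, ENNReal.ofReal_rpow_of_nonneg (Nat.cast_nonneg _) (by norm_num),
    ← Real.sqrt_eq_rpow, ← ENNReal.ofReal_mul hn'.le, mul_div_cancel₀ _ hn'.ne']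
  simp

end Pool.Agent.Results.MP_93c8fe_an.Bound
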